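import Pool.Agent.DRB.Basic

/-!
# Torsors of periods of abelian varieties

Subtorsors of `Iso (H¹_dR (A), H¹_B (A)) × 𝔾ₘ` for an abelian variety `A : AbVar g`.
-/

open scoped BigOperators
open Matrix

namespace Pool.Agent.ABT

open Pool.Agent.DRB

noncomputable section

variable {g : ℕ}

/-- Square matrices with rows and columns indexed by `Idx g`, together with a number `λ`. -/
abbrev Pt (g : ℕ) : Type := Matrix (Idx g) (Idx g) ℂ × ℂ

/-- The index set of the coordinates of `Pt g`. -/
abbrev Crd (g : ℕ) : Type := Option (Idx g × Idx g)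

/-- The coordinates: all matrix entries and the number `λ`. -/
def crd (f : Pt g) : Crd g → ℂ
  | none => f.2
  | some p => f.1 p.1 p.2

/-- The comparison isomorphism: the period matrix and `2 π i`. -/
def comparison (A : AbVar g) : Pt g := (A.per, 2 * Real.pi * Complex.I)

/-- The complex points of the Zariski closure of the comparison isomorphism over the algebraic
numbers. -/
def ZX (A : AbVar g) : Set (Pt g) :=
  {f | IsUnit f ∧ ∀ P : MvPolynomial (Crd g) ℂ, AlgPoly P →
    MvPolynomial.eval (crd (comparison A)) P = 0 → MvPolynomial.eval (crd f) P = 0}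

/-- The isomorphisms compatible with all endomorphisms of `A` and with the class of the ample divisor. -/
def Omega (A : AbVar g) : Set (Pt g) :=
  {f | IsUnit f ∧
    (∀ (α : Matrix (Idx g) (Idx g) ℚ) (ρ : Matrix (Idx g) (Idx g) ℂ),
      (∀ r s, IsAlgebraic ℚ (ρ r s)) → (∀ i j, ρ (Sum.inl i) (Sum.inr j) = 0) →
      A.per * AbVar.toC α = ρ * A.per → f.1 * AbVar.toC α = ρ * f.1) ∧
    f.1ᵀ * Jm g * f.1 = f.2 • A.riem}

/-- `H` is an algebraic subgroup defined over `ℚ`. -/
def IsQGroup (H : Subgroup (Pt g)ˣ) : Prop :=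
  ∃ T : Set (MvPolynomial (Crd g) ℚ), ∀ h : (Pt g)ˣ,
    h ∈ H ↔ ∀ P ∈ T, MvPolynomial.aeval (crd (h : Pt g)) P = 0

/-- `S` is the set of complex points of a closed subscheme of `Iso` defined over the algebraic
numbers. -/
def IsClosedQbar (S : Set (Pt g)) : Prop :=
  ∃ T : Set (MvPolynomial (Crd g) ℂ), (∀ P ∈ T, AlgPoly P) ∧
    S = {f | IsUnit f ∧ ∀ P ∈ T, MvPolynomial.eval (crd f) P = 0}

/-- `S` is (the set of complex points of) a subtorsor. -/
def IsSubtorsor (S : Set (Pt g)) : Prop :=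
  IsClosedQbar S ∧ ∃ H : Subgroup (Pt g)ˣ, IsQGroup H ∧ ∃ s : (Pt g)ˣ,
    S = {f | ∃ h ∈ H, f = (s : Pt g) * h}

/-- The smallest subtorsor containing `Z_A` is the torsor of the divisor classes. -/
def Stmt_Torsor : Prop := ∀ (g : ℕ) (A : AbVar g), A.Hyp →
  IsLeast {S : Set (Pt g) | IsSubtorsor S ∧ ZX A ⊆ S} (Omega A)

end

end Pool.Agent.ABT
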