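import Pool.Agent.ABT.Core
import Pool.Agent.DRB.Leg

/-! ABT: the torsor of the divisor classes is the smallest subtorsor containing the comparison. -/

open scoped BigOperators
open Matrix

namespace Pool.Agent.ABT

open Pool.Agent.DRB

noncomputable section

variable {g : ℕ}

section Poly

variable {K : Type} [CommRing K] [Algebra K ℂ]

/-- the generic matrix -/
def XM (K : Type) [CommRing K] (g : ℕ) : Matrix (Idx g) (Idx g) (MvPolynomial (Crd g) K) :=
  Matrix.of fun i j => MvPolynomial.X (some (i, j))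

/-- constant matrices -/
def CM (a : Matrix (Idx g) (Idx g) K) : Matrix (Idx g) (Idx g) (MvPolynomial (Crd g) K) :=
  a.map MvPolynomial.C

/-- complex matrix -/
def cm (a : Matrix (Idx g) (Idx g) K) : Matrix (Idx g) (Idx g) ℂ := a.map (algebraMap K ℂ)

/-- evaluation of a matrix of polynomials -/
def ev (f : Pt g) : Matrix (Idx g) (Idx g) (MvPolynomial (Crd g) K) →+* Matrix (Idx g) (Idx g) ℂ :=
  (MvPolynomial.aeval (R := K) (crd f) : MvPolynomial (Crd g) K →+* ℂ).mapMatrix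

theorem ev_apply (f : Pt g) (M : Matrix (Idx g) (Idx g) (MvPolynomial (Crd g) K)) (i j : Idx g) :
    ev f M i j = MvPolynomial.aeval (crd f) (M i j) := rfl

theorem ev_XM (f : Pt g) : ev f (XM K g) = f.1 := by
  ext i j
  rw [ev_apply]
  simp only [XM, Matrix.of_apply, MvPolynomial.aeval_X]
  rfl

theorem ev_XMt (f : Pt g) : ev f (XM K g)ᵀ = f.1ᵀ := by
  ext i j
  rw [ev_apply, Matrix.transpose_apply, Matrix.transpose_apply]
  simp only [XM, Matrix.of_apply, MvPolynomial.aeval_X]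
  rfl

theorem ev_CM (f : Pt g) (a : Matrix (Idx g) (Idx g) K) : ev f (CM a) = cm a := by
  ext i j
  rw [ev_apply]
  simp only [CM, Matrix.map_apply, MvPolynomial.aeval_C, cm]

/-- first kind of equations -/
def P1 (a b : Matrix (Idx g) (Idx g) K) (i j : Idx g) : MvPolynomial (Crd g) K :=
  (XM K g * CM a - CM b * XM K g) i j

/-- second kind of equations -/
def P2 (J R : Matrix (Idx g) (Idx g) K) (i j : Idx g) : MvPolynomial (Crd g) K :=
  ((XM K g)ᵀ * CM J * XM K g) i j - MvPolynomial.X none * MvPolynomial.C (R i j)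

theorem ev_P1 (f : Pt g) (a b : Matrix (Idx g) (Idx g) K) (i j : Idx g) :
    MvPolynomial.aeval (crd f) (P1 a b i j) = (f.1 * cm a - cm b * f.1) i j := by
  rw [P1, ← ev_apply, map_sub, map_mul, map_mul, ev_XM, ev_CM, ev_CM]

theorem ev_P2 (f : Pt g) (J R : Matrix (Idx g) (Idx g) K) (i j : Idx g) :
    MvPolynomial.aeval (crd f) (P2 J R i j) = (f.1ᵀ * cm J * f.1 - f.2 • cm R) i j := by
  rw [P2, map_sub, ← ev_apply, map_mul, map_mul, ev_XM, ev_CM, ev_XMt, map_mul,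
    MvPolynomial.aeval_X, MvPolynomial.aeval_C]
  rfl

theorem P1_zero (f : Pt g) (a b : Matrix (Idx g) (Idx g) K) :
    (∀ i j, MvPolynomial.aeval (crd f) (P1 a b i j) = 0) ↔ f.1 * cm a = cm b * f.1 := by
  constructor
  · intro h
    ext i j
    have h1 := h i j
    rw [ev_P1, Matrix.sub_apply, sub_eq_zero] at h1
    exact h1
  · intro h i j
    rw [ev_P1, h, sub_self]
    rfl

theorem P2_zero (f : Pt g) (J R : Matrix (Idx g) (Idx g) K) :
    (∀ i j, MvPolynomial.aeval (crd f) (P2 J R i j) = 0) ↔ f.1ᵀ * cm J * f.1 = f.2 • cm R := by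
  constructor
  · intro h
    ext i j
    have h1 := h i j
    rw [ev_P2, Matrix.sub_apply, sub_eq_zero] at h1
    exact h1
  · intro h i j
    rw [ev_P2, h, sub_self]
    rfl

end Poly

/-- the group of similitudes of the Riemann form which commute with the endomorphisms -/
def Gr (A : AbVar g) : Subgroup (Pt g)ˣ where
  carrier := {h | (∀ α ∈ A.EndQ, (h : Pt g).1 * AbVar.toC α = AbVar.toC α * (h : Pt g).1) ∧
    (h : Pt g).1ᵀ * A.riem * (h : Pt g).1 = (h : Pt g).2 • A.riem}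
  one_mem' := by
    simp
  mul_mem' := by
    intro x y hx hy
    have h1 : ((x * y : (Pt g)ˣ) : Pt g).1 = (x : Pt g).1 * (y : Pt g).1 := rfl
    have h2 : ((x * y : (Pt g)ˣ) : Pt g).2 = (x : Pt g).2 * (y : Pt g).2 := rfl
    refine ⟨fun α hα => ?_, ?_⟩
    · rw [h1, Matrix.mul_assoc, hy.1 α hα, ← Matrix.mul_assoc, hx.1 α hα, Matrix.mul_assoc]
    · rw [h1, h2, Matrix.transpose_mul]
      have h3 : (y : Pt g).1ᵀ * (x : Pt g).1ᵀ * A.riem * ((x : Pt g).1 * (y : Pt g).1) =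
          (y : Pt g).1ᵀ * ((x : Pt g).1ᵀ * A.riem * (x : Pt g).1) * (y : Pt g).1 := by
        simp only [Matrix.mul_assoc]
      rw [h3, hx.2, Matrix.mul_smul, Matrix.smul_mul, hy.2, smul_smul]
  inv_mem' := by
    intro x hx
    have h1 : (x : Pt g).1 * ((x⁻¹ : (Pt g)ˣ) : Pt g).1 = 1 := congrArg Prod.fst x.mul_inv
    have h2 : ((x⁻¹ : (Pt g)ˣ) : Pt g).1 * (x : Pt g).1 = 1 := congrArg Prod.fst x.inv_mul
    have h3 : ((x⁻¹ : (Pt g)ˣ) : Pt g).2 * (x : Pt g).2 = 1 := congrArg Prod.snd x.inv_mul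
    have h1t : ((x⁻¹ : (Pt g)ˣ) : Pt g).1ᵀ * (x : Pt g).1ᵀ = 1 := by
      rw [← Matrix.transpose_mul, h1, Matrix.transpose_one]
    refine ⟨fun α hα => ?_, ?_⟩
    · have h4 := hx.1 α hα
      calc ((x⁻¹ : (Pt g)ˣ) : Pt g).1 * AbVar.toC α
          = ((x⁻¹ : (Pt g)ˣ) : Pt g).1 * (AbVar.toC α * (x : Pt g).1) *
            ((x⁻¹ : (Pt g)ˣ) : Pt g).1 := by
            rw [Matrix.mul_assoc, Matrix.mul_assoc, h1, Matrix.mul_one]
        _ = AbVar.toC α * ((x⁻¹ : (Pt g)ˣ) : Pt g).1 := by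
            rw [← h4, ← Matrix.mul_assoc, h2, Matrix.one_mul]
    · have h4 := hx.2
      have h5 : A.riem = (x : Pt g).2 • (((x⁻¹ : (Pt g)ˣ) : Pt g).1ᵀ * A.riem *
          ((x⁻¹ : (Pt g)ˣ) : Pt g).1) := by
        rw [← Matrix.smul_mul, ← Matrix.mul_smul, ← h4]
        have h6 : ((x⁻¹ : (Pt g)ˣ) : Pt g).1ᵀ * ((x : Pt g).1ᵀ * A.riem * (x : Pt g).1) *
            ((x⁻¹ : (Pt g)ˣ) : Pt g).1 =
            (((x⁻¹ : (Pt g)ˣ) : Pt g).1ᵀ * (x : Pt g).1ᵀ) * A.riem *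
              ((x : Pt g).1 * ((x⁻¹ : (Pt g)ˣ) : Pt g).1) := by
          simp only [Matrix.mul_assoc]
        rw [h6, h1, h1t, Matrix.one_mul, Matrix.mul_one]
      calc ((x⁻¹ : (Pt g)ˣ) : Pt g).1ᵀ * A.riem * ((x⁻¹ : (Pt g)ˣ) : Pt g).1
          = (((x⁻¹ : (Pt g)ˣ) : Pt g).2 * (x : Pt g).2) •
            (((x⁻¹ : (Pt g)ˣ) : Pt g).1ᵀ * A.riem * ((x⁻¹ : (Pt g)ˣ) : Pt g).1) := by
            rw [h3, one_smul]
        _ = ((x⁻¹ : (Pt g)ˣ) : Pt g).2 • A.riem := by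
            rw [← smul_smul, ← h5]

theorem riem_rat (A : AbVar g) : ∃ R : Matrix (Idx g) (Idx g) ℚ, cm R = A.riem := by
  choose n hn using (leg_proof g A).1
  refine ⟨Matrix.of fun i j => (n i j : ℚ), ?_⟩
  ext i j
  simp [cm, hn]

theorem Gr_isQ (A : AbVar g) : IsQGroup (Gr A) := by
  obtain ⟨R, hR⟩ := riem_rat A
  refine ⟨{P | (∃ α ∈ A.EndQ, ∃ i j, P = P1 α α i j) ∨ ∃ i j, P = P2 R R i j}, fun h => ?_⟩
  constructor
  · rintro ⟨h1, h2⟩ P (⟨α, hα, i, j, rfl⟩ | ⟨i, j, rfl⟩)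
    · exact (P1_zero (h : Pt g) α α).mpr (h1 α hα) i j
    · refine (P2_zero (h : Pt g) R R).mpr ?_ i j
      rw [hR]
      exact h2
  · intro hT
    refine ⟨fun α hα => ?_, ?_⟩
    · exact (P1_zero (h : Pt g) α α).mp fun i j => hT _ (Or.inl ⟨α, hα, i, j, rfl⟩)
    · have := (P2_zero (h : Pt g) R R).mp fun i j => hT _ (Or.inr ⟨i, j, rfl⟩)
      rw [hR] at this
      exact this

/-- integral matrices as matrices over the algebraic numbers -/
theorem jm_alg (g : ℕ) : ∃ J : Matrix (Idx g) (Idx g) (algebraicClosure ℚ ℂ), cm J = Jm g := by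
  refine ⟨Matrix.fromBlocks 0 1 (-1) 0, ?_⟩
  unfold cm Jm
  rw [Matrix.fromBlocks_map]
  have h0 : (0 : Matrix (Fin g) (Fin g) (algebraicClosure ℚ ℂ)).map
      (algebraMap (algebraicClosure ℚ ℂ) ℂ) = 0 := by
    ext i j
    simp
  have h1 : (1 : Matrix (Fin g) (Fin g) (algebraicClosure ℚ ℂ)).map
      (algebraMap (algebraicClosure ℚ ℂ) ℂ) = 1 := by
    ext i j
    rw [Matrix.map_apply]
    by_cases h : i = j
    · subst h
      simp
    · rw [Matrix.one_apply_ne h, Matrix.one_apply_ne h, map_zero]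
  have h2 : (-1 : Matrix (Fin g) (Fin g) (algebraicClosure ℚ ℂ)).map
      (algebraMap (algebraicClosure ℚ ℂ) ℂ) = -1 := by
    ext i j
    rw [Matrix.map_apply, Matrix.neg_apply, map_neg, Matrix.neg_apply]
    congr 1
    by_cases h : i = j
    · subst h
      simp
    · rw [Matrix.one_apply_ne h, Matrix.one_apply_ne h, map_zero]
  rw [h0, h1, h2]

theorem Omega_closed (A : AbVar g) : IsClosedQbar (Omega A) := by
  obtain ⟨R, hR⟩ := riem_rat A
  obtain ⟨J, hJ⟩ := jm_alg g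
  let R' : Matrix (Idx g) (Idx g) (algebraicClosure ℚ ℂ) := R.map (algebraMap ℚ _)
  have hR' : cm R' = A.riem := by
    rw [← hR]
    ext i j
    simp [cm, R']
  let mp : MvPolynomial (Crd g) (algebraicClosure ℚ ℂ) → MvPolynomial (Crd g) ℂ :=
    MvPolynomial.map (algebraMap (algebraicClosure ℚ ℂ) ℂ)
  have hmp : ∀ (f : Pt g) P, MvPolynomial.eval (crd f) (mp P) = MvPolynomial.aeval (crd f) P := by
    intro f P
    simp only [mp]
    rw [MvPolynomial.eval_map, MvPolynomial.aeval_def]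
  refine ⟨{P | (∃ (α : Matrix (Idx g) (Idx g) ℚ) (a ρ : Matrix (Idx g) (Idx g) (algebraicClosure ℚ ℂ)),
    cm a = AbVar.toC α ∧ (∀ i j, cm ρ (Sum.inl i) (Sum.inr j) = 0) ∧
    A.per * AbVar.toC α = cm ρ * A.per ∧ ∃ i j, P = mp (P1 a ρ i j)) ∨
    ∃ i j, P = mp (P2 J R' i j)}, ?_, ?_⟩
  · have key : ∀ P : MvPolynomial (Crd g) (algebraicClosure ℚ ℂ), AlgPoly (mp P) := by
      intro P m
      simp only [mp]
      rw [MvPolynomial.coeff_map]
      exact mem_algebraicClosure_iff.mp (Subtype.property _)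
    rintro P (⟨α, a, ρ, -, -, -, i, j, rfl⟩ | ⟨i, j, rfl⟩)
    · exact key _
    · exact key _
  · ext f
    constructor
    · rintro ⟨h0, h1, h2⟩
      refine ⟨h0, ?_⟩
      rintro P (⟨α, a, ρ, ha, hρ, hαρ, i, j, rfl⟩ | ⟨i, j, rfl⟩)
      · rw [hmp]
        refine (P1_zero f a ρ).mpr ?_ i j
        rw [ha]
        exact h1 α (cm ρ) (fun r s => mem_algebraicClosure_iff.mp (ρ r s).2) hρ hαρ
      · rw [hmp]
        refine (P2_zero f J R').mpr ?_ i j
        rw [hJ, hR']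
        exact h2
    · rintro ⟨h0, hT⟩
      refine ⟨h0, ?_, ?_⟩
      · intro α ρ hρ1 hρ2 hαρ
        let ρ' : Matrix (Idx g) (Idx g) (algebraicClosure ℚ ℂ) :=
          Matrix.of fun r s => ⟨ρ r s, mem_algebraicClosure_iff.mpr (hρ1 r s)⟩
        have hρ' : cm ρ' = ρ := by
          ext r s
          rfl
        let a : Matrix (Idx g) (Idx g) (algebraicClosure ℚ ℂ) := α.map (algebraMap ℚ _)
        have ha : cm a = AbVar.toC α := by
          ext i j
          simp [cm, a, AbVar.toC]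
        have h1 := (P1_zero f a ρ').mp fun i j => by
          rw [← hmp]
          refine hT _ (Or.inl ⟨α, a, ρ', ha, ?_, ?_, i, j, rfl⟩)
          · rw [hρ']; exact hρ2
          · rw [hρ']; exact hαρ
        rw [ha, hρ'] at h1
        exact h1
      · have h1 := (P2_zero f J R').mp fun i j => by
          rw [← hmp]
          exact hT _ (Or.inr ⟨i, j, rfl⟩)
        rw [hJ, hR'] at h1
        exact h1

theorem comparison_mem (A : AbVar g) : comparison A ∈ Omega A :=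
  ⟨comparison_unit A, fun _ _ _ _ h => h, (leg_proof g A).2.1⟩

/-- the points of `Omega` are the translates of the comparison point -/
theorem Omega_iff (A : AbVar g) (f : Pt g) :
    f ∈ Omega A ↔ ∃ h ∈ Gr A, f = comparison A * (h : Pt g) := by
  have hpi : (2 * Real.pi * Complex.I : ℂ) ≠ 0 := by simp [Real.pi_ne_zero, Complex.I_ne_zero]
  obtain ⟨c, hc⟩ := comparison_unit A
  have hc1 : (c : Pt g).1 = A.per := congrArg Prod.fst hc
  have hc2 : (c : Pt g).2 = 2 * Real.pi * Complex.I := congrArg Prod.snd hc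
  have hleg : A.perᵀ * Jm g * A.per = (2 * Real.pi * Complex.I : ℂ) • A.riem := (leg_proof g A).2.1
  have hcc : ((c⁻¹ : (Pt g)ˣ) : Pt g).1 * A.per = 1 := by
    rw [← hc1]
    exact congrArg Prod.fst c.inv_mul
  rw [← hc]
  constructor
  · rintro ⟨⟨f', rfl⟩, h1, h2⟩
    have hf : (f' : Pt g) = (c : Pt g) * ((c⁻¹ * f' : (Pt g)ˣ) : Pt g) := by
      rw [← Units.val_mul, mul_inv_cancel_left]
    refine ⟨c⁻¹ * f', ⟨?_, ?_⟩, hf⟩
    · intro α hα
      obtain ⟨ρ, r1, r2, r3⟩ := hα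
      have h3 := h1 α ρ r1 r2 r3
      have hf1 : (f' : Pt g).1 = A.per * ((c⁻¹ * f' : (Pt g)ˣ) : Pt g).1 := by
        rw [← hc1]
        exact congrArg Prod.fst hf
      rw [hf1, ← Matrix.mul_assoc, ← r3, Matrix.mul_assoc, Matrix.mul_assoc] at h3
      have h4 := congrArg (fun M => ((c⁻¹ : (Pt g)ˣ) : Pt g).1 * M) h3
      simp only [← Matrix.mul_assoc] at h4
      rw [hcc, Matrix.one_mul, Matrix.one_mul] at h4
      exact h4
    · have hf1 : (f' : Pt g).1 = A.per * ((c⁻¹ * f' : (Pt g)ˣ) : Pt g).1 := by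
        rw [← hc1]
        exact congrArg Prod.fst hf
      have hf2 : (f' : Pt g).2 = (2 * Real.pi * Complex.I) * ((c⁻¹ * f' : (Pt g)ˣ) : Pt g).2 := by
        rw [← hc2]
        exact congrArg Prod.snd hf
      rw [hf1, hf2, Matrix.transpose_mul] at h2
      have h3 : ((c⁻¹ * f' : (Pt g)ˣ) : Pt g).1ᵀ * A.perᵀ * Jm g *
          (A.per * ((c⁻¹ * f' : (Pt g)ˣ) : Pt g).1) =
          ((c⁻¹ * f' : (Pt g)ˣ) : Pt g).1ᵀ * (A.perᵀ * Jm g * A.per) *
            ((c⁻¹ * f' : (Pt g)ˣ) : Pt g).1 := by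
        simp only [Matrix.mul_assoc]
      rw [h3, hleg, Matrix.mul_smul, Matrix.smul_mul] at h2
      have h5 : (2 * Real.pi * Complex.I * ((c⁻¹ * f' : (Pt g)ˣ) : Pt g).2) • A.riem =
          (2 * Real.pi * Complex.I : ℂ) • (((c⁻¹ * f' : (Pt g)ˣ) : Pt g).2 • A.riem) := by
        rw [smul_smul]
      rw [h5] at h2
      exact smul_right_injective _ hpi h2
  · rintro ⟨h, ⟨h1, h2⟩, rfl⟩
    refine ⟨(c * h).isUnit, ?_, ?_⟩
    · intro α ρ r1 r2 r3
      have h3 := h1 α ⟨ρ, r1, r2, r3⟩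
      rw [Prod.fst_mul, hc1, Matrix.mul_assoc, h3, ← Matrix.mul_assoc, r3, Matrix.mul_assoc]
    · rw [Prod.fst_mul, Prod.snd_mul, hc1, hc2, Matrix.transpose_mul]
      have h3 : (h : Pt g).1ᵀ * A.perᵀ * Jm g * (A.per * (h : Pt g).1) =
          (h : Pt g).1ᵀ * (A.perᵀ * Jm g * A.per) * (h : Pt g).1 := by
        simp only [Matrix.mul_assoc]
      rw [h3, hleg, Matrix.mul_smul, Matrix.smul_mul, h2, smul_smul]

theorem Omega_sub (A : AbVar g) : IsSubtorsor (Omega A) := by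
  obtain ⟨c, hc⟩ := comparison_unit A
  refine ⟨Omega_closed A, Gr A, Gr_isQ A, c, ?_⟩
  ext f
  rw [Omega_iff, hc]
  rfl

theorem ZX_sub (A : AbVar g) {S : Set (Pt g)} (hS : IsClosedQbar S) (hc : comparison A ∈ S) :
    ZX A ⊆ S := by
  obtain ⟨T, hT, rfl⟩ := hS
  rintro f ⟨hf1, hf2⟩
  exact ⟨hf1, fun P hP => hf2 P (hT P hP) (hc.2 P hP)⟩

theorem torsor_proof (hMain : MainStatement) : Stmt_Torsor := by
  intro g A hA
  refine ⟨⟨Omega_sub A, ZX_sub A (Omega_closed A) (comparison_mem A)⟩, ?_⟩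
  rintro S ⟨hS, hZ⟩ f hf
  have hcS : comparison A ∈ S := hZ ⟨comparison_unit A, fun _ _ h => h⟩
  obtain ⟨h, hh, rfl⟩ := (Omega_iff A f).mp hf
  let y := MulEquiv.prodUnits h
  have hy1 : y.1.val = (h : Pt g).1 := rfl
  have hy2 : y.2.val = (h : Pt g).2 := rfl
  have h1 := (hMain g A hA y.1 y.2).mpr ⟨by rw [hy1]; exact hh.1, by rw [hy1, hy2]; exact hh.2⟩
  have h2 := core A hS hcS y.1 y.2 h1
  exact h2

end

end Pool.Agent.ABT
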