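import Pool.Agent.ABT.Rep
import Pool.Agent.DRB.Gb2
import Pool.Agent.DRB.Desca
import Pool.Agent.DRB.Descq
import Pool.Agent.DRB.Aut1
import Pool.Agent.DRB.AUT2

/-! ABT: subtorsors and de Rham-Betti subobjects. -/

open scoped BigOperators
open Matrix

namespace Pool.Agent.ABT

open Pool.Agent.DRB

noncomputable section

variable {g : ℕ}

/-- coordinatewise action of an automorphism -/
def sg (σ : ℂ ≃ₐ[ℚ] ℂ) : Pt g →+* Pt g :=
  RingHom.prodMap ((σ : ℂ →+* ℂ).mapMatrix) (σ : ℂ →+* ℂ)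

theorem sg_fst (σ : ℂ ≃ₐ[ℚ] ℂ) (f : Pt g) : (sg σ f).1 = f.1.map σ := rfl
theorem sg_snd (σ : ℂ ≃ₐ[ℚ] ℂ) (f : Pt g) : (sg σ f).2 = σ f.2 := rfl

theorem crd_sg (σ : ℂ ≃ₐ[ℚ] ℂ) (f : Pt g) : crd (sg σ f) = fun c => σ (crd f c) := by
  funext c
  rcases c with _ | p <;> rfl

/-- action on units -/
def sgU (σ : ℂ ≃ₐ[ℚ] ℂ) (f : (Pt g)ˣ) : (Pt g)ˣ := Units.map (sg (g := g) σ).toMonoidHom f

theorem sgU_val (σ : ℂ ≃ₐ[ℚ] ℂ) (f : (Pt g)ˣ) : (sgU σ f : Pt g) = sg σ (f : Pt g) := rfl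

theorem group_stable {H : Subgroup (Pt g)ˣ} (hH : IsQGroup H) (σ : ℂ ≃ₐ[ℚ] ℂ) {h : (Pt g)ˣ}
    (hh : h ∈ H) : sgU σ h ∈ H := by
  obtain ⟨T, hT⟩ := hH
  rw [hT] at hh ⊢
  intro P hP
  rw [sgU_val, crd_sg]
  have h1 := MvPolynomial.comp_aeval_apply (R := ℚ) (crd (h : Pt g)) (σ : ℂ →ₐ[ℚ] ℂ) P
  have h2 := hh P hP
  rw [h2, map_zero] at h1
  exact h1.symm

theorem closed_stable {S : Set (Pt g)} (hS : IsClosedQbar S) {τ : ℂ ≃ₐ[ℚ] ℂ} (hτ : τ ∈ GalA)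
    {f : Pt g} (hf : f ∈ S) : sg τ f ∈ S := by
  obtain ⟨T, hT, rfl⟩ := hS
  refine ⟨hf.1.map (sg τ), fun P hP => ?_⟩
  have h1 := hf.2 P hP
  have h2 : MvPolynomial.map (τ : ℂ →+* ℂ) P = P := by
    ext m
    rw [MvPolynomial.coeff_map]
    exact hτ _ (hT P hP m)
  rw [crd_sg, ← h2, MvPolynomial.eval_map]
  have h3 := MvPolynomial.eval₂_comp_left (τ : ℂ →+* ℂ) (RingHom.id ℂ) (crd f) P
  rw [RingHom.comp_id] at h3
  have h4 : MvPolynomial.eval₂ (τ : ℂ →+* ℂ) (fun c => τ (crd f c)) P =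
      (τ : ℂ →+* ℂ) (MvPolynomial.eval₂ (RingHom.id ℂ) (crd f) P) := h3.symm
  rw [h4]
  have h5 : MvPolynomial.eval₂ (RingHom.id ℂ) (crd f) P = 0 := h1
  rw [h5, map_zero]

theorem comparison_unit (A : AbVar g) : IsUnit (comparison A) := by
  rw [Prod.isUnit_iff]
  refine ⟨?_, ?_⟩
  · exact (Matrix.isUnit_iff_isUnit_det _).mpr A.nondeg
  · have h : (2 * Real.pi * Complex.I : ℂ) ≠ 0 := by simp [Real.pi_ne_zero, Complex.I_ne_zero]
    exact h.isUnit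

/-- the space of relations -/
def Dsub (H : Subgroup (Pt g)ˣ) (t : TData) (i : ∀ r : Fin t.n, Fin (t.a r) → Idx g) :
    Submodule ℂ (TIdx t (Idx g) → ℂ) where
  carrier := {u | ∀ h ∈ H, ∑ r, TAct t (h : Pt g).1 (h : Pt g).2 u ⟨r, i r⟩ = 0}
  zero_mem' := by
    intro h _
    simp
  add_mem' := by
    intro u v hu hv h hh
    simp only [map_add, Pi.add_apply, Finset.sum_add_distrib, hu h hh, hv h hh, add_zero]
  smul_mem' := by
    intro c u hu h hh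
    simp only [map_smul, Pi.smul_apply, smul_eq_mul, ← Finset.mul_sum, hu h hh, mul_zero]

theorem Dsub_stable (H : Subgroup (Pt g)ˣ) (t : TData) (i : ∀ r : Fin t.n, Fin (t.a r) → Idx g)
    {h : (Pt g)ˣ} (hh : h ∈ H) {u : TIdx t (Idx g) → ℂ} (hu : u ∈ Dsub H t i) :
    TAct t (h : Pt g).1 (h : Pt g).2 u ∈ Dsub H t i := by
  intro h' hh'
  have h1 := hu (h' * h) (H.mul_mem hh' hh)
  have h2 : TAct t ((h' * h : (Pt g)ˣ) : Pt g).1 ((h' * h : (Pt g)ˣ) : Pt g).2 u =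
      TAct t (h' : Pt g).1 (h' : Pt g).2 (TAct t (h : Pt g).1 (h : Pt g).2 u) := by
    have h3 : ((h' * h : (Pt g)ˣ) : Pt g) = (h' : Pt g) * (h : Pt g) := rfl
    rw [h3, Prod.fst_mul, Prod.snd_mul, TAct_comp, LinearMap.comp_apply]
  rw [h2] at h1
  exact h1

theorem Dsub_gal {H : Subgroup (Pt g)ˣ} (hH : IsQGroup H) (t : TData)
    (i : ∀ r : Fin t.n, Fin (t.a r) → Idx g) (σ : ℂ ≃ₐ[ℚ] ℂ) {u : TIdx t (Idx g) → ℂ}
    (hu : u ∈ Dsub H t i) : (fun k => σ (u k)) ∈ Dsub H t i := by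
  intro h hh
  have h1 := hu _ (group_stable hH σ.symm hh)
  have h2 := congrArg σ h1
  rw [map_zero, map_sum] at h2
  rw [← h2]
  refine Finset.sum_congr rfl fun r _ => ?_
  have h3 := congrFun (GB2X.map_TAct t σ (sgU σ.symm h : Pt g).1 (sgU σ.symm h : Pt g).2 u) ⟨r, i r⟩
  rw [h3]
  have h4 : (sgU σ.symm h : Pt g).1.map σ = (h : Pt g).1 := by
    rw [sgU_val, sg_fst]
    ext a b
    simp
  have h5 : σ (sgU σ.symm h : Pt g).2 = (h : Pt g).2 := by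
    rw [sgU_val, sg_snd]
    simp
  rw [h4, h5]

/-- A subtorsor containing the comparison point contains everything which is obtained by the de
Rham-Betti group. -/
theorem core (A : AbVar g) {S : Set (Pt g)} (hS : IsSubtorsor S) (hc : comparison A ∈ S)
    (x : GL (Idx g) ℂ) (ν : ℂˣ) (hx : InGdRB A x ν) :
    ((A.per * x.val, 2 * Real.pi * Complex.I * ν.val) : Pt g) ∈ S := by
  obtain ⟨hcl, H, hH, s, hs⟩ := hS
  -- the unit `(x, ν)`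
  let y : (Pt g)ˣ := MulEquiv.prodUnits.symm (x, ν)
  have hy1 : (y : Pt g).1 = x.val := rfl
  have hy2 : (y : Pt g).2 = ν.val := rfl
  obtain ⟨h0, hh0, hc0⟩ := (show comparison A ∈ {f | ∃ h ∈ H, f = (s : Pt g) * h} from hs ▸ hc)
  suffices hyH : y ∈ H by
    rw [hs]
    refine ⟨h0 * y, H.mul_mem hh0 hyH, ?_⟩
    rw [Units.val_mul, ← mul_assoc, ← hc0]
    rfl
  have hDD : ∀ (t : TData) (i : ∀ r : Fin t.n, Fin (t.a r) → Idx g), IsDRB A t (Dsub H t i) := by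
    intro t i
    refine ⟨descq_proof aut1_proof _ _ fun σ v hv => Dsub_gal hH t i σ hv, ?_⟩
    refine desca_proof aut2_proof _ _ ?_
    rintro τ hτ _ ⟨u, hu, rfl⟩
    rw [GB2X.map_TAct]
    obtain ⟨h1, hh1, hc1⟩ := (show sg τ (comparison A) ∈ {f | ∃ h ∈ H, f = (s : Pt g) * h} from
      hs ▸ closed_stable hcl hτ hc)
    have h2 : sg τ (comparison A) = comparison A * ((h0⁻¹ * h1 : (Pt g)ˣ) : Pt g) := by
      have h7 : ((h0⁻¹ * h1 : (Pt g)ˣ) : Pt g) = ((h0⁻¹ : (Pt g)ˣ) : Pt g) * (h1 : Pt g) := rfl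
      rw [hc1, hc0, h7, mul_assoc, ← mul_assoc (h0 : Pt g), Units.mul_inv, one_mul]
    have h3 : A.per.map τ = A.per * ((h0⁻¹ * h1 : (Pt g)ˣ) : Pt g).1 := congrArg Prod.fst h2
    have h4 : τ (2 * Real.pi * Complex.I) =
        (2 * Real.pi * Complex.I) * ((h0⁻¹ * h1 : (Pt g)ˣ) : Pt g).2 := congrArg Prod.snd h2
    rw [h3, h4, TAct_comp]
    exact ⟨_, Dsub_stable H t i (H.mul_mem (H.inv_mem hh0) hh1) (Dsub_gal hH t i τ hu), rfl⟩
  obtain ⟨T, hT⟩ := id hH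
  rw [hT]
  intro P hP
  obtain ⟨t, i, u, hu⟩ := repr P
  have h1 : u ∈ Dsub H t i := by
    intro h hh
    rw [hu]
    exact (hT h).mp hh P hP
  have h2 := hx t _ (hDD t i)
  have h3 : TAct t x.val ν.val u ∈ Dsub H t i := by
    rw [← h2]
    exact ⟨u, h1, rfl⟩
  have h4 := h3 1 H.one_mem
  have h5 : ((1 : (Pt g)ˣ) : Pt g).1 = 1 := rfl
  have h6 : ((1 : (Pt g)ˣ) : Pt g).2 = 1 := rfl
  rw [h5, h6, TAct_one] at h4
  rw [← hu]
  exact h4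

end

end Pool.Agent.ABT
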