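import Pool.Agent.ABT.Defs

/-! ABT: polynomials as coordinates of tensors. -/

open scoped BigOperators
open Matrix

namespace Pool.Agent.ABT

open Pool.Agent.DRB

noncomputable section

variable {g : ℕ}

theorem monom (m : Crd g →₀ ℕ) : ∃ (k a : ℕ) (w : Fin a → Idx g × Idx g), ∀ f : Pt g,
    m.prod (fun c e => crd f c ^ e) = f.2 ^ k * ∏ s, f.1 (w s).1 (w s).2 := by
  classical
  induction m using Finsupp.induction_linear with
  | zero => exact ⟨0, 0, Fin.elim0, fun f => by simp⟩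
  | add m1 m2 h1 h2 =>
    obtain ⟨k1, a1, w1, h1⟩ := h1
    obtain ⟨k2, a2, w2, h2⟩ := h2
    refine ⟨k1 + k2, a1 + a2, Fin.append w1 w2, fun f => ?_⟩
    rw [Finsupp.prod_add_index' (by intro a; simp) (by intro a b c; exact pow_add _ _ _), h1 f, h2 f,
      Fin.prod_univ_add]
    simp only [Fin.append_left, Fin.append_right]
    ring
  | single c e =>
    rcases c with _ | p
    · refine ⟨e, 0, Fin.elim0, fun f => ?_⟩
      rw [Finsupp.prod_single_index (by simp)]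
      simp [crd]
    · refine ⟨0, e, fun _ => p, fun f => ?_⟩
      rw [Finsupp.prod_single_index (by simp)]
      simp [crd]

theorem repr (P : MvPolynomial (Crd g) ℚ) : ∃ (t : TData) (i : ∀ r : Fin t.n, Fin (t.a r) → Idx g)
    (u : TIdx t (Idx g) → ℂ), ∀ f : Pt g,
      ∑ r, TAct t f.1 f.2 u ⟨r, i r⟩ = MvPolynomial.aeval (crd f) P := by
  classical
  choose k a w hw using (monom (g := g))
  let e := P.support.equivFin
  let t : TData := ⟨P.support.card, fun r => a (e.symm r : Crd g →₀ ℕ),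
    fun r => (k (e.symm r : Crd g →₀ ℕ) : ℤ)⟩
  let i : ∀ r : Fin t.n, Fin (t.a r) → Idx g := fun r s => (w (e.symm r : Crd g →₀ ℕ) s).1
  let u : TIdx t (Idx g) → ℂ := fun p =>
    if p.2 = (fun s => (w (e.symm p.1 : Crd g →₀ ℕ) s).2) then
      ((P.coeff (e.symm p.1 : Crd g →₀ ℕ) : ℚ) : ℂ) else 0
  refine ⟨t, i, u, fun f => ?_⟩
  have h1 : ∀ r : Fin t.n, TAct t f.1 f.2 u ⟨r, i r⟩ =
      ((P.coeff (e.symm r : Crd g →₀ ℕ) : ℚ) : ℂ) *
        (e.symm r : Crd g →₀ ℕ).prod (fun c n => crd f c ^ n) := by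
    intro r
    rw [TAct_apply, hw]
    rw [Finset.sum_eq_single (fun s => (w (e.symm r : Crd g →₀ ℕ) s).2)]
    · have h2 : u ⟨r, fun s => (w (e.symm r : Crd g →₀ ℕ) s).2⟩ =
          ((P.coeff (e.symm r : Crd g →₀ ℕ) : ℚ) : ℂ) := if_pos rfl
      rw [h2]
      have h3 : f.2 ^ (t.k r) = f.2 ^ (k (e.symm r : Crd g →₀ ℕ)) := zpow_natCast _ _
      change f.2 ^ (t.k r) * _ = _
      rw [h3]
      ring
    · intro J _ hJ
      have h2 : u ⟨r, J⟩ = 0 := if_neg hJ
      rw [h2, mul_zero]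
    · intro h
      exact absurd (Finset.mem_univ _) h
  rw [Finset.sum_congr rfl fun r _ => h1 r]
  rw [MvPolynomial.aeval_def, MvPolynomial.eval₂_eq']
  have h2 : ∑ x ∈ P.support, (algebraMap ℚ ℂ) (P.coeff x) * ∏ c, crd f c ^ x c =
      ∑ x : P.support, (algebraMap ℚ ℂ) (P.coeff (x : Crd g →₀ ℕ)) *
        ∏ c, crd f c ^ (x : Crd g →₀ ℕ) c :=
    (Finset.sum_coe_sort P.support
      (fun x => (algebraMap ℚ ℂ) (P.coeff x) * ∏ c, crd f c ^ x c)).symm
  rw [h2]
  rw [← Equiv.sum_comp e.symm]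
  refine Finset.sum_congr rfl fun r _ => ?_
  congr 1
  rw [Finsupp.prod_fintype]
  intro c
  simp

end

end Pool.Agent.ABT
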